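import Pool.Agent.W120.WM.Defs2

/-! The elementary inequality for `ph`. -/

set_option autoImplicit false

namespace Pool.Agent.W235.WM

open Pool.Agent.W120.WM

theorem u_interp : U_INTERP := by
  intro C0 hC0
  have hl2 : 0 < Real.log (2 + C0) := Real.log_pos (by linarith)
  have hpi : 0 < Real.pi / 4 * C0 := by positivity
  refine ⟨3 / 4 * Real.log (2 + C0) + Real.pi / 4 * C0, by positivity, ?_⟩
  intro a b t θ hat htb hθ h1 h2 h3
  have hab : 0 < b - a := by linarith
  have hθ0 : 0 < θ := by
    by_contra hcon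
    push Not at hcon
    have : θ * (b - a) ≤ 0 := mul_nonpos_of_nonpos_of_nonneg hcon hab.le
    linarith
  have hθ1 : θ < 1 := by
    by_contra hcon
    push Not at hcon
    have : 1 * (b - a) ≤ θ * (b - a) := mul_le_mul_of_nonneg_right hcon hab.le
    linarith
  have ht : t = θ * a + (1 - θ) * b := by linarith
  -- growth of the logarithm
  have key : ∀ x y z : ℝ, 0 ≤ x → x ≤ y → y ≤ z → z ≤ 2 * x + C0 →
      Real.log (1 + y) ≤ Real.log (1 + x) + Real.log (2 + C0) ∧
      Real.log (1 + x) ≤ Real.log (1 + z) := by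
    intro x y z hx hxy hyz hz
    constructor
    · rw [← Real.log_mul (by linarith) (by linarith)]
      apply Real.log_le_log (by linarith)
      nlinarith [mul_nonneg hx hC0.le]
    · exact Real.log_le_log (by linarith) (by linarith)
  unfold ph
  rcases le_or_gt 0 a with ha | ha
  · have hb := h1 ha
    rw [abs_of_nonneg ha, abs_of_nonneg (by linarith : 0 ≤ b), abs_of_nonneg (by linarith : 0 ≤ t)]
    obtain ⟨k1, k2⟩ := key a t b ha hat.le htb.le hb
    have k3 : 0 ≤ (1 - θ) * (Real.log (1 + b) - Real.log (1 + a)) :=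
      mul_nonneg (by linarith) (by linarith)
    have k4 : -(Real.pi / 4) * t = θ * (-(Real.pi / 4) * a) + (1 - θ) * (-(Real.pi / 4) * b) := by
      rw [ht]
      ring
    nlinarith
  · rcases le_or_gt b 0 with hb | hb
    · have hb' := h2 hb
      rw [abs_of_nonpos ha.le, abs_of_nonpos hb, abs_of_nonpos (by linarith : t ≤ 0)]
      obtain ⟨k1, k2⟩ := key (-b) (-t) (-a) (by linarith) (by linarith) (by linarith)
        (by linarith)
      have k3 : 0 ≤ θ * (Real.log (1 + -a) - Real.log (1 + -b)) :=
        mul_nonneg hθ0.le (by linarith)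
      have k4 : -(Real.pi / 4) * -t =
          θ * (-(Real.pi / 4) * -a) + (1 - θ) * (-(Real.pi / 4) * -b) := by
        rw [ht]
        ring
      nlinarith
    · obtain ⟨k1, k2⟩ := h3 ha.le hb.le
      have k3 : |t| ≤ C0 := by
        rw [abs_le] at k1 k2 ⊢
        constructor <;> linarith [k1.1, k1.2, k2.1, k2.2]
      have k4 : Real.log (1 + |t|) ≤ Real.log (2 + C0) :=
        Real.log_le_log (by linarith [abs_nonneg t]) (by linarith)
      have k5 : 0 ≤ Real.pi / 4 * |t| := by positivity
      have k6 : Real.pi / 4 * |a| ≤ Real.pi / 4 * C0 :=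
        mul_le_mul_of_nonneg_left k1 (by positivity)
      have k7 : Real.pi / 4 * |b| ≤ Real.pi / 4 * C0 :=
        mul_le_mul_of_nonneg_left k2 (by positivity)
      have k8 : 0 ≤ Real.log (1 + |a|) := Real.log_nonneg (by linarith [abs_nonneg a])
      have k9 : 0 ≤ Real.log (1 + |b|) := Real.log_nonneg (by linarith [abs_nonneg b])
      have m1 : θ * (Real.pi / 4 * |a|) ≤ θ * (Real.pi / 4 * C0) :=
        mul_le_mul_of_nonneg_left k6 hθ0.le
      have m2 : (1 - θ) * (Real.pi / 4 * |b|) ≤ (1 - θ) * (Real.pi / 4 * C0) :=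
        mul_le_mul_of_nonneg_left k7 (by linarith)
      have m3 : 0 ≤ θ * Real.log (1 + |a|) := mul_nonneg hθ0.le k8
      have m4 : 0 ≤ (1 - θ) * Real.log (1 + |b|) := mul_nonneg (by linarith) k9
      nlinarith

end Pool.Agent.W235.WM
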